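import Pool.Agent.N625.PT.X8
import Pool.Agent.Y877.SxK

/-!
# Sums of a Chen prime and a prime: random multiples of a small primorial, for the random integers given by digits

Nothing is used besides Mathlib in the statement: `∑ v ∈ range (b ^ k), (if P v then p v else 0)` is the probability that
the random integer `v < b ^ k` with the distribution `p` has the property `P`.
-/

set_option autoImplicit false

open Finset

namespace Pool.Agent.Results.MP_c6d112_nt.ExchangeableMultiples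

/-- The probability, for the distribution `μ` on the words of `k` digits (the integers `v < b ^ k`), that the word begins with
the `i` digits of `u < b ^ i`. -/
noncomputable def begins (b k : ℕ) (μ : ℕ → ℝ) (i u : ℕ) : ℝ := ∑ w ∈ range (b ^ (k - i)), μ (u * b ^ (k - i) + w)

/-- `p` is a probability on the words of `k` digits in base `b`, read as integers `v < b ^ k`. There is another probability
`μ` with `p ≤ k ^ T μ` such that after every beginning `u` two different blocks `a`, `a'` of `L` digits can be exchanged: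
`p (u a w) = r p (u a' w)` for all endings `w`, with a factor `r` between `η` and `1 / η` which does not depend on `w`; and
given the beginning `u`, each of the two blocks comes next with a probability of at least `η` in the distribution `μ`.
(For `T = 0` one has `μ = p`. For the uniform distribution on a set of words `r` is `1`.) -/
structure Exchangeable (b L : ℕ) (η : ℝ) (T k : ℕ) (p : ℕ → ℝ) : Prop where
  nonneg : ∀ v, 0 ≤ p v
  sum : ∑ v ∈ range (b ^ k), p v = 1
  dominated : ∃ μ : ℕ → ℝ, (∀ v, 0 ≤ μ v) ∧ ∑ v ∈ range (b ^ k), μ v = 1 ∧ (∀ v < b ^ k, p v ≤ (k : ℝ) ^ T * μ v) ∧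
    ∀ i u : ℕ, i + L ≤ k → u < b ^ i → ∃ (a a' : ℕ) (r : ℝ), a < a' ∧ a' < b ^ L ∧ η ≤ r ∧ η * r ≤ 1 ∧
      (∀ w < b ^ (k - (i + L)), p ((b ^ L * u + a) * b ^ (k - (i + L)) + w) = r * p ((b ^ L * u + a') * b ^ (k - (i + L)) + w)) ∧
      η * begins b k μ i u ≤ begins b k μ (i + L) (b ^ L * u + a) ∧
      η * begins b k μ i u ≤ begins b k μ (i + L) (b ^ L * u + a')

/-- the primes `p ≤ x` such that `|p + a|` is a product of at most two primes -/
def Ch (a : ℤ) (x : ℕ) : Finset ℕ :=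
  (Icc 1 x).filter (fun p : ℕ => p.Prime ∧ (p : ℤ) + a ≠ 0 ∧ ((p : ℤ) + a).natAbs.primeFactorsList.length ≤ 2)

/-- the product of `1 - 1/q` over the primes `q ≤ y` -/
noncomputable def V (y : ℕ) : ℝ := ∏ q ∈ (Icc 1 y).filter Nat.Prime, (1 - 1 / (q : ℝ))

/-- the multiple of the product of the primes `≤ y` given by the integers `h` and `c + κ v` -/
def Nv (y h : ℕ) (c κ : ℤ) (v : ℕ) : ℤ := ((primorial y * h : ℕ) : ℤ) * (c + κ * v)

/-- the `u ∈ S` such that `n - u` is prime -/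
def Rep (S : Finset ℕ) (n : ℤ) : Finset ℕ := S.filter (fun u : ℕ => (n - u).toNat.Prime)

lemma begins_sum (b k : ℕ) (μ : ℕ → ℝ) (i u : ℕ) (hi : i < k) :
    ∑ a ∈ range b, begins b k μ (i + 1) (b * u + a) = begins b k μ i u := by
  unfold begins
  obtain ⟨n, hn⟩ : ∃ n, k - i = n + 1 := ⟨k - i - 1, by omega⟩
  have h1 : k - (i + 1) = n := by omega
  rw [h1, hn, pow_succ, mul_comm (b ^ n) b, Pool.Agent.N625.PT.sum_blocks b (b ^ n)]
  apply sum_congr rfl
  intro a _
  apply sum_congr rfl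
  intro w _
  congr 1
  ring

lemma flex_of {b L T k : ℕ} {η : ℝ} {p : ℕ → ℝ} (hp : Exchangeable b L η T k p) : Pool.Agent.N625.PT.Flex b L η T k p := by
  obtain ⟨h0, h1, μ, m0, m1, m2, m3⟩ := hp
  have hT : (0 : ℝ) ≤ (k : ℝ) ^ T := by positivity
  have hb0 : ∀ i u, 0 ≤ begins b k μ i u := fun i u => sum_nonneg fun w _ => m0 _
  refine ⟨h0, h1, fun i u => (k : ℝ) ^ T * begins b k μ i u, fun i u => mul_nonneg hT (hb0 i u), ?_, ?_, ?_, ?_⟩
  · intro v hv
    refine (m2 v hv).trans (le_of_eq ?_)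
    unfold begins
    simp
  · intro i hi u _
    simp only
    rw [← mul_sum, begins_sum b k μ i u hi]
  · simp only
    have : begins b k μ 0 0 = 1 := by
      unfold begins
      simpa using m1
    rw [this, mul_one]
  · intro i u hi hu
    obtain ⟨a, a', r, q1, q2, q3, q4, q5, q6, q7⟩ := m3 i u hi hu
    refine ⟨a, a', r, q1, q2, q3, q4, q5, ?_, ?_⟩
    · simp only
      calc η * ((k : ℝ) ^ T * begins b k μ i u) = (k : ℝ) ^ T * (η * begins b k μ i u) := by ring
        _ ≤ _ := mul_le_mul_of_nonneg_left q6 hT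
    · simp only
      calc η * ((k : ℝ) ^ T * begins b k μ i u) = (k : ℝ) ^ T * (η * begins b k μ i u) := by ring
        _ ≤ _ := mul_le_mul_of_nonneg_left q7 hT

theorem ch_low : ∃ c₀ : ℝ, 0 < c₀ ∧ ∃ x₀ : ℕ, ∀ x : ℕ, x₀ ≤ x → ∀ a : ℤ, Even a → a ≠ 0 → |a| ≤ x →
    c₀ * x / Real.log x ^ 2 ≤ ((Ch a x).card : ℝ) := by
  obtain ⟨c, hc, X0, hX⟩ := Pool.Agent.Y877.SX.chen_cnt
  refine ⟨c, hc, X0, fun x hx a ha h0 hax => ?_⟩
  have h1 := hX x hx (-a) (neg_ne_zero.2 h0) (by rwa [abs_neg]) ha.neg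
  refine h1.trans ?_
  rw [Nat.cast_le]
  apply card_le_card
  intro p hp
  rw [mem_filter, mem_Ioc] at hp
  obtain ⟨⟨g1, g2⟩, g3, g4, g5⟩ := hp
  unfold Ch
  rw [mem_filter, mem_Icc]
  have h6 : (-a - (p : ℤ)).natAbs = ((p : ℤ) + a).natAbs := by
    rw [← Int.natAbs_neg]
    congr 1
    ring
  rw [h6] at g5
  exact ⟨⟨g1, g2⟩, g3, fun hq => g4 (by linarith), g5⟩

open Classical in
/-- (0) For some absolute constant `c₀ > 0`, all large `x` and all even `a ≠ 0`, `|a| ≤ x`, there are at least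
`c₀ x / log ^ 2 x` primes `p ≤ x` such that `|p + a|` is a product of at most two primes; `Ch a x` is the set of all of
them. Now let `v < b ^ k` be a random integer whose distribution `p` has exchangeable blocks of digits, let `y` be between
`K₀ log k` and `K₁ log k`, `M` the product of the primes `≤ y`, and `X` an integer with `b ^ k ≤ X k ^ C`,
`X ≤ b ^ k k ^ C`. Then for all `|c| ≤ B b ^ k` and all `1 ≤ h ≤ k ^ J` the random integer `N = M h (c + κ v)` has the
following properties. (1) For EVERY even `a ≠ 0` with `|a| ≤ X` the following has a probability of at most `ε`: `N > X` and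
`N` has fewer than `(1 - ε) #S / (V y log b ^ k)` representations `N = p + q`, `p ∈ S` and `q` a prime, `S = Ch a X`.
(2) The probability that `N > X` and that this happens for at least one even `a ≠ 0` with `|a| ≤ A` is at most `ε`. -/
theorem result : (∃ c₀ : ℝ, 0 < c₀ ∧ ∃ x₀ : ℕ, ∀ x : ℕ, x₀ ≤ x → ∀ a : ℤ, Even a → a ≠ 0 → |a| ≤ x →
      c₀ * x / Real.log x ^ 2 ≤ ((Ch a x).card : ℝ)) ∧
    ∀ (b L : ℕ), 2 ≤ b → 1 ≤ L → ∀ η : ℝ, 0 < η → η ≤ 1 → ∀ (T₀ : ℕ) (κ : ℤ), κ ≠ 0 →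
    ∀ (B J A C : ℕ) (ε : ℝ), 0 < ε → ε ≤ 1 → ∃ K₀ : ℕ, ∀ K₁ : ℕ, ∃ k₀ : ℕ, ∀ k : ℕ, k₀ ≤ k →
    ∀ p : ℕ → ℝ, Exchangeable b L η T₀ k p → ∀ y : ℕ, K₀ * Real.log k ≤ y → y ≤ K₁ * Real.log k →
    ∀ c : ℤ, |c| ≤ B * (b : ℤ) ^ k → ∀ h : ℕ, 1 ≤ h → h ≤ k ^ J → ∀ X : ℕ, b ^ k ≤ X * k ^ C → X ≤ b ^ k * k ^ C →
      (∀ a : ℤ, Even a → a ≠ 0 → |a| ≤ X →
        ∑ v ∈ range (b ^ k), (if (X : ℤ) < Nv y h c κ v ∧ ((Rep (Ch a X) (Nv y h c κ v)).card : ℝ) <
          (1 - ε) * ((Ch a X).card / (V y * (k * Real.log b))) then p v else 0) ≤ ε) ∧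
      ∑ v ∈ range (b ^ k), (if (X : ℤ) < Nv y h c κ v ∧ ∃ a : ℤ, Even a ∧ a ≠ 0 ∧ |a| ≤ A ∧
          ((Rep (Ch a X) (Nv y h c κ v)).card : ℝ) <
          (1 - ε) * ((Ch a X).card / (V y * (k * Real.log b))) then p v else 0) ≤ ε := by
  obtain ⟨c₀, hc₀, m1, hm1⟩ := ch_low
  refine ⟨⟨c₀, hc₀, m1, hm1⟩, ?_⟩
  intro b L hb hL η hη0 hη1 T₀ κ hκ B J A C ε hε hε1
  obtain ⟨ε', hε'⟩ : ∃ ε' : ℝ, ε' = ε / (2 * A + 1) := ⟨_, rfl⟩
  have hA : (0 : ℝ) < 2 * A + 1 := by positivity
  have hA1 : (1 : ℝ) ≤ 2 * A + 1 := by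
    have : (0 : ℝ) ≤ A := Nat.cast_nonneg A
    linarith
  have he0 : 0 < ε' := by rw [hε']; positivity
  have hee : ε' ≤ ε := by
    rw [hε']
    exact div_le_self hε.le hA1
  obtain ⟨K₀, h0⟩ := Pool.Agent.N625.PT.dense_sum b L hb hL η hη0 hη1 κ hκ T₀ B J 5 C ε' he0 (hee.trans hε1)
  refine ⟨K₀, fun K₁ => ?_⟩
  obtain ⟨k₀, h0⟩ := h0 K₁
  obtain ⟨k₁, h1⟩ := Pool.Agent.N625.PT.X_large b C hb
  obtain ⟨k₂, h2⟩ := Pool.Agent.N625.PT.log_X b C hb
  obtain ⟨k₃, h3⟩ := exists_nat_ge (1 / c₀)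
  refine ⟨max (max k₀ k₁) (max k₂ (max (max (max m1 A) k₃) 2)), fun k hk p hp y hy1 hy2 c hc h hh1 hhJ X hX1 hX2 => ?_⟩
  have b0 : 2 ≤ k := by omega
  have hkr : (1 : ℝ) ≤ k := by exact_mod_cast (by omega : 1 ≤ k)
  have hb1 : (1 : ℝ) < b := by exact_mod_cast (by omega : 1 < b)
  have hlogb : 0 < Real.log b := Real.log_pos hb1
  have hVy : 0 < V y := Pool.Agent.H373R2.T7.Vz_pos y
  have b1 := h1 k (by omega) X hX1
  have b2 := h2 k (by omega) X hX2
  have b3 : 1 / c₀ ≤ k := h3.trans (by exact_mod_cast (by omega : k₃ ≤ k))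
  have hln : 0 < Real.log X := Real.log_pos (by exact_mod_cast (by omega : 1 < X))
  obtain ⟨Bd, hBd⟩ : ∃ Bd : ℤ → ℕ → Prop, ∀ a v, Bd a v ↔ ((X : ℤ) < Nv y h c κ v ∧
    ((Rep (Ch a X) (Nv y h c κ v)).card : ℝ) < (1 - ε) * ((Ch a X).card / (V y * (k * Real.log b)))) := ⟨_, fun _ _ => Iff.rfl⟩
  have key : ∀ a : ℤ, Even a → a ≠ 0 → |a| ≤ X → ∑ v ∈ range (b ^ k), (if Bd a v then p v else 0) ≤ ε' := by
    intro a ha ha0 haX
    have hlow := hm1 X (by omega) a ha ha0 haX
    have hdense : (X : ℝ) ≤ (Ch a X).card * (k : ℝ) ^ 5 := by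
      rw [div_le_iff₀ (by positivity)] at hlow
      rw [div_le_iff₀ hc₀] at b3
      have hX0 : (0 : ℝ) ≤ X := Nat.cast_nonneg X
      calc (X : ℝ) ≤ (k * c₀) * X := by nlinarith
        _ = k * (c₀ * X) := by ring
        _ ≤ k * ((Ch a X).card * Real.log X ^ 2) := mul_le_mul_of_nonneg_left hlow (by linarith)
        _ ≤ k * ((Ch a X).card * ((k : ℝ) ^ 2) ^ 2) := by
            apply mul_le_mul_of_nonneg_left _ (by linarith)
            apply mul_le_mul_of_nonneg_left _ (Nat.cast_nonneg _)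
            exact pow_le_pow_left₀ hln.le b2 _
        _ = (Ch a X).card * (k : ℝ) ^ 5 := by ring
    have h4 := h0 k (by omega) p (flex_of hp) y hy1 hy2 c hc h hh1 hhJ X hX1 hX2 (Ch a X) (filter_subset _ _)
      (fun q hq => (mem_filter.1 hq).2.1) hdense
    refine le_trans ?_ h4
    apply sum_le_sum
    intro v _
    by_cases hv : Bd a v
    · rw [if_pos hv, if_pos]
      rw [hBd] at hv
      refine ⟨hv.1, lt_of_lt_of_le (lt_of_eq_of_lt ?_ hv.2) ?_⟩
      · congr!
      · apply mul_le_mul_of_nonneg_right (by linarith)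
        exact div_nonneg (Nat.cast_nonneg _) (mul_nonneg hVy.le (by positivity))
    · rw [if_neg hv]
      split_ifs
      · exact hp.nonneg v
      · exact le_rfl
  refine ⟨fun a ha ha0 haX => le_trans (le_of_eq ?_) ((key a ha ha0 haX).trans hee), ?_⟩
  · apply sum_congr rfl
    intro v _
    by_cases hv : Bd a v
    · rw [if_pos hv, if_pos ((hBd a v).1 hv)]
    · rw [if_neg hv, if_neg (fun hq => hv ((hBd a v).2 hq))]
  · obtain ⟨F, hF⟩ : ∃ F : Finset ℤ, F = (Icc (-(A : ℤ)) A).filter (fun a => Even a ∧ a ≠ 0) := ⟨_, rfl⟩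
    have hFc : (F.card : ℝ) ≤ 2 * A + 1 := by
      have h5 : F.card ≤ (Icc (-(A : ℤ)) A).card := by
        rw [hF]
        exact card_filter_le _ _
      rw [Int.card_Icc] at h5
      have h6 : F.card ≤ 2 * A + 1 := by omega
      exact_mod_cast h6
    calc ∑ v ∈ range (b ^ k), (if (X : ℤ) < Nv y h c κ v ∧ ∃ a : ℤ, Even a ∧ a ≠ 0 ∧ |a| ≤ A ∧
          ((Rep (Ch a X) (Nv y h c κ v)).card : ℝ) <
          (1 - ε) * ((Ch a X).card / (V y * (k * Real.log b))) then p v else 0)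
        ≤ ∑ v ∈ range (b ^ k), ∑ a ∈ F, (if Bd a v then p v else 0) := by
          apply sum_le_sum
          intro v _
          have hnn : ∀ a ∈ F, (0 : ℝ) ≤ (if Bd a v then p v else 0) := by
            intro a _
            split_ifs
            · exact hp.nonneg v
            · exact le_rfl
          split_ifs with hq
          · obtain ⟨g1, a, g2, g3, g4, g5⟩ := hq
            have haF : a ∈ F := by
              rw [hF, mem_filter, mem_Icc]
              rw [abs_le] at g4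
              exact ⟨g4, g2, g3⟩
            have h7 := single_le_sum hnn haF
            rwa [if_pos ((hBd a v).2 ⟨g1, g5⟩)] at h7
          · exact sum_nonneg hnn
      _ = ∑ a ∈ F, ∑ v ∈ range (b ^ k), (if Bd a v then p v else 0) := sum_comm
      _ ≤ ∑ a ∈ F, ε' := by
          apply sum_le_sum
          intro a ha
          rw [hF, mem_filter, mem_Icc] at ha
          apply key a ha.2.1 ha.2.2
          rw [abs_le]
          have : (A : ℤ) ≤ X := by exact_mod_cast (by omega : A ≤ X)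
          constructor <;> linarith [ha.1.1, ha.1.2]
      _ = F.card * ε' := by rw [sum_const, nsmul_eq_mul]
      _ ≤ (2 * A + 1) * ε' := mul_le_mul_of_nonneg_right hFc he0.le
      _ = ε := by
          rw [hε']
          field_simp

end Pool.Agent.Results.MP_c6d112_nt.ExchangeableMultiples
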