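import Pool.Agent.N837.LP.GenW

set_option autoImplicit false

/-!
# A positive proportion of the even numbers miss the first `A log n` twin primes

For every `A ≥ 1` and `0 < η ≤ 1`, for every large `X` a positive proportion of the even `n` in
`(X, X + X ^ η]` is such that `n - s` is composite (with a prime factor at most `X ^ (η δ)`) for each
twin prime `s < n` with at most `A log X` smaller twin primes.
-/

namespace Pool.Agent.Results.MP_c6d112_nt.FrequentLateTwins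

open Classical in
/-- here a twin prime is a prime `s` such that `s + 2` or `s - 2` is prime, as in the problem -/
theorem result (δ : ℝ) (hδ : 0 < δ) :
    ∃ C : ℝ, 0 < C ∧ ∀ A η : ℝ, 1 ≤ A → 0 < η → η ≤ 1 →
    ∃ X₀ : ℝ, ∀ X : ℝ, X₀ ≤ X →
    X ^ η * Real.exp (-Real.exp (C * A / η)) ≤
      (({n : ℕ | Even n ∧ X < n ∧ (n : ℝ) ≤ X + X ^ η ∧
        ∀ s : ℕ, s.Prime → ((s + 2).Prime ∨ (s - 2).Prime) → s < n →
          (((Finset.range s).filter
            (fun t : ℕ => t.Prime ∧ ((t + 2).Prime ∨ (t - 2).Prime))).card : ℝ) ≤ A * Real.log X →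
          ∃ q : ℕ, q.Prime ∧ (q : ℝ) ≤ X ^ (η * δ) ∧ q ∣ n - s ∧ q < n - s}).ncard : ℝ) := by
  obtain ⟨C, hC, h⟩ := Pool.Agent.N837.LP.genFirst δ hδ
  refine ⟨C, hC, fun A η hA hη hη1 => ?_⟩
  obtain ⟨X₀, hX₀⟩ := h A η hA hη hη1
  refine ⟨X₀, fun X hX => ?_⟩
  have h1 := hX₀ X hX (fun t : ℕ => t.Prime ∧ ((t + 2).Prime ∨ (t - 2).Prime)) 0
  refine h1.trans (Nat.cast_le.2 (Set.ncard_le_ncard ?_ ?_))
  · intro n hn
    obtain ⟨q1, q2, q3, q4⟩ := hn
    refine ⟨?_, q1, q2, fun s hs hs2 hsn hc => q4 s ⟨hs, hs2⟩ hsn (by convert hc)⟩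
    have e1 : (n : ℤ) % 2 = 0 := by simpa using q3
    have e2 : n % 2 = 0 := by omega
    exact Nat.even_iff.2 e2
  · apply (Set.finite_Iic ⌊X + X ^ η⌋₊).subset
    intro a ha
    obtain ⟨_, _, h2, _⟩ := ha
    rw [Set.mem_Iic]
    exact Nat.le_floor h2

end Pool.Agent.Results.MP_c6d112_nt.FrequentLateTwins
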