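import Mathlib
import Pool.Agent.N9.AD.Dub2
import Pool.Agent.N9.AD.Model

/-!
# Sums of two twins in all sieved sequential random models

The integers are decided one after the other; the multiples of the primes of a finite set `Q` are
never chosen and the conditional probability of choosing an integer `n + 1` which is not such a
multiple, given the decisions up to `n`, is asymptotic to `∏_{p ∈ Q} (1 - 1 / p)⁻¹ / log n`, almost
surely. No independence and no rate of convergence are assumed. In every such model, almost surely,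
the number of the `s ≤ x` with `s`, `s + 2`, `N - s`, `N - s + 2` chosen is asymptotically the
expected one, uniformly in `x`, and every large `N` (every large even `N` if `2 ∈ Q`) is a sum of two
twins, the smaller of which is at most `K (log N)³ (log log N)²`.

Method (`Pool/Agent/N9/AD`): an exponential supermartingale (helper893) gives the law of predictable
sums along any decreasing sequence of integers, uniformly; it is used for `N - s + 2`, then for
`N - s`, then for `s + 2`; the chosen integers are equidistributed in the residue classes.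

The notion of a sequential model and the theorem on Hawkins' sieve are from the team files by
helper528 (`Pool/Agent/R528/RM`) and helper740 (`Pool/Agent/N740/HK`); a lemma on residues is by
helper909 (`Pool/Agent/N909/TF`).
-/

set_option autoImplicit false

open MeasureTheory Filter Set
open scoped Topology

namespace Pool.Agent.Results.MP_c6d112_nt.SievedModels

variable {Ω : Type}

/-- `A n` is the event that `n` is chosen; adapted to `ℱ`; multiples of the primes in `Q` are not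
chosen; the conditional probability of `A (n + 1)` given `ℱ n`, times `log n`, tends almost surely to
`∏_{p ∈ Q} (1 - 1 / p)⁻¹` along the `n` such that no `p ∈ Q` divides `n + 1` -/
def SievedModel [m : MeasurableSpace Ω] (μ : Measure Ω) (ℱ : Filtration ℕ m) (A : ℕ → Set Ω)
    (Q : Finset ℕ) : Prop :=
  (∀ n, MeasurableSet[ℱ n] (A n)) ∧ (∀ n, (∃ p ∈ Q, p ∣ n) → A n = ∅) ∧
  ∀ᵐ ω ∂μ, Tendsto (fun n : ℕ => (μ[(A (n + 1)).indicator (fun _ => (1 : ℝ)) | ℱ n]) ω * Real.log n)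
    (atTop ⊓ 𝓟 {n : ℕ | ∀ p ∈ Q, ¬ p ∣ n + 1}) (𝓝 (∏ p ∈ Q, (1 - 1 / (p : ℝ))⁻¹))

open Classical in
/-- The random sieve of Hawkins: `2` is chosen, and given the decisions up to `n ≥ 2` the number
`n + 1` is chosen with probability `∏ (1 - 1 / h)`, the product over the chosen `2 ≤ h ≤ n`. -/
def HawkinsSieve [m : MeasurableSpace Ω] (μ : Measure Ω) (ℱ : Filtration ℕ m) (A : ℕ → Set Ω) : Prop :=
  (∀ n, MeasurableSet[ℱ n] (A n)) ∧ A 2 = univ ∧
  ∀ n, 2 ≤ n → μ[(A (n + 1)).indicator (fun _ => (1 : ℝ)) | ℱ n] =ᵐ[μ]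
    fun ω => ∏ h ∈ Finset.Icc 2 n, if ω ∈ A h then 1 - 1 / (h : ℝ) else 1

/-- the number of the `1 ≤ s ≤ x` such that `s`, `s + 2`, `N - s` and `N - s + 2` are chosen -/
noncomputable def reps (A : ℕ → Set Ω) (ω : Ω) (N x : ℕ) : ℕ :=
  {s : ℕ | 1 ≤ s ∧ s ≤ x ∧ (ω ∈ A s ∧ ω ∈ A (s + 2) ∧ ω ∈ A (N - s) ∧ ω ∈ A (N - s + 2))}.ncard

/-- a twin: `p` is chosen, and `p + 2` or `p - 2` is chosen -/
def Twin (A : ℕ → Set Ω) (ω : Ω) (p : ℕ) : Prop :=
  ω ∈ A p ∧ ∃ q, (q = p + 2 ∨ p = q + 2) ∧ ω ∈ A q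

/-- the local density: with `W` the product of the primes in `Q`, the proportion of the residues `a`
modulo `W` with `a (a + 2) (N - a) (N - a + 2)` coprime to `W`, divided by `(φ(W) / W) ^ 4` -/
noncomputable def sing (Q : Finset ℕ) (N : ℕ) : ℝ :=
  ({a : ℕ | a < ∏ p ∈ Q, p ∧ IsCoprime ((a : ℤ) * (a + 2) * (N - a) * (N - a + 2))
    ((∏ p ∈ Q, p : ℕ) : ℤ)}.ncard / ((∏ p ∈ Q, p : ℕ) : ℝ)) *
    (((∏ p ∈ Q, p : ℕ) : ℝ) / Nat.totient (∏ p ∈ Q, p)) ^ 4

open Pool.Agent.R528.RM Pool.Agent.N9.AD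

lemma reps_eq (A : ℕ → Set Ω) (ω : Ω) (N x : ℕ) :
    (reps A ω N x : ℝ) = ∑ s ∈ Finset.Icc 1 x, In A s ω * In A (s + 2) ω * In A (N - s) ω *
      In A (N - s + 2) ω := by
  unfold reps
  apply ncard_sum (fun s => ω ∈ A s ∧ ω ∈ A (s + 2) ∧ ω ∈ A (N - s) ∧ ω ∈ A (N - s + 2))
    (fun s => In A s ω * In A (s + 2) ω * In A (N - s) ω * In A (N - s + 2) ω)
  · rintro s ⟨h1, h2, h3, h4⟩
    have e1 : In A s ω = 1 := indicator_of_mem h1 _
    have e2 : In A (s + 2) ω = 1 := indicator_of_mem h2 _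
    have e3 : In A (N - s) ω = 1 := indicator_of_mem h3 _
    have e4 : In A (N - s + 2) ω = 1 := indicator_of_mem h4 _
    simp only [e1, e2, e3, e4, mul_one]
  · intro s h
    by_cases h1 : ω ∈ A s
    · by_cases h2 : ω ∈ A (s + 2)
      · by_cases h3 : ω ∈ A (N - s)
        · have e4 : In A (N - s + 2) ω = 0 := indicator_of_notMem (fun h4 => h ⟨h1, h2, h3, h4⟩) _
          simp only [e4, mul_zero]
        · have e3 : In A (N - s) ω = 0 := indicator_of_notMem h3 _
          simp only [e3, mul_zero, zero_mul]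
      · have e2 : In A (s + 2) ω = 0 := indicator_of_notMem h2 _
        simp only [e2, mul_zero, zero_mul]
    · have e1 : In A s ω = 0 := indicator_of_notMem h1 _
      simp only [e1, zero_mul]

lemma ar1 (N r k : ℕ) (hr : r ≤ 2) (hN : 10 ≤ N) (hk : N = k + k) : N - 2 * r = (k - r) + (k - r) := by
  omega

lemma ar2 (N : ℕ) (hN : 10 ≤ N) : ∃ r, r ≤ 2 ∧ (N - 2 * r) % 3 = 1 := by
  have h3 : N % 3 = 0 ∨ N % 3 = 1 ∨ N % 3 = 2 := by omega
  rcases h3 with h | h | h
  · exact ⟨1, by norm_num, by omega⟩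
  · exact ⟨0, by norm_num, by omega⟩
  · exact ⟨2, by norm_num, by omega⟩

lemma ar3 (N r x s : ℕ) (hr : r ≤ 2) (hN : 10 ≤ N) (hx : x ≤ (N - 2 * r - 3) / 2) (hs : s ≤ x) :
    (r = 0 → N = s + (N - 2 * r - s)) ∧ (r = 1 → N = s + (N - 2 * r - s + 2)) ∧
    (r = 2 → N = (s + 2) + (N - 2 * r - s + 2)) := by
  refine ⟨fun h => ?_, fun h => ?_, fun h => ?_⟩ <;> subst h <;> omega

lemma ar4 (N r N₀ : ℕ) (hr : r ≤ 2) (hN : N₀ + 10 ≤ N) : N₀ ≤ N - 2 * r ∧ N₀ ≤ N ∧ 10 ≤ N ∧ 0 < N - 2 * r := by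
  omega

lemma cast_cop (n W : ℕ) : IsCoprime (n : ℤ) (W : ℤ) ↔ Nat.Coprime n W := Nat.isCoprime_iff_coprime

lemma cop_shift {W : ℕ} (hW : 0 < W) (N a e : ℕ) :
    IsCoprime ((N : ℤ) - a + e) (W : ℤ) ↔ Nat.Coprime (N + (W - 1) * a + e) W := by
  rw [← cast_cop]
  have h1 : ((N + (W - 1) * a + e : ℕ) : ℤ) = ((N : ℤ) - a + e) + (W : ℤ) * a := by
    push_cast [Nat.cast_sub (show 1 ≤ W from hW)]
    ring
  rw [h1]
  exact (IsCoprime.add_mul_left_left_iff).symm

lemma sing_eq (Q : Finset ℕ) (hQ : ∀ p ∈ Q, p.Prime) (N : ℕ) :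
    (((∏ p ∈ Q, p : ℕ) : ℝ) / Nat.totient (∏ p ∈ Q, p)) ^ 2 *
        (((GD (∏ p ∈ Q, p) N).card : ℝ) * ((((∏ p ∈ Q, p : ℕ) : ℝ) / Nat.totient (∏ p ∈ Q, p)) *
          (1 / Nat.totient (∏ p ∈ Q, p)))) = sing Q N := by
  unfold sing
  set W := ∏ p ∈ Q, p with hWdef
  have hW : 0 < W := Finset.prod_pos fun q hq => (hQ q hq).pos
  have hWR : (0 : ℝ) < W := by exact_mod_cast hW
  have hφR : (0 : ℝ) < Nat.totient W := by exact_mod_cast Nat.totient_pos.2 hW
  have h1 : {a : ℕ | a < W ∧ IsCoprime ((a : ℤ) * (a + 2) * (N - a) * (N - a + 2)) (W : ℤ)} =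
      (GD W N : Set ℕ) := by
    ext a
    unfold GD
    simp only [Set.mem_ofPred_eq, Finset.coe_filter, Finset.mem_range]
    rw [IsCoprime.mul_left_iff, IsCoprime.mul_left_iff, IsCoprime.mul_left_iff, ← cop_shift hW N a 0,
      ← cop_shift hW N a 2, ← cast_cop a W, ← cast_cop (a + 2) W]
    push_cast
    rw [add_zero]
    tauto
  rw [h1, Set.ncard_coe_finset]
  field_simp

end Pool.Agent.Results.MP_c6d112_nt.SievedModels

open Pool.Agent.Results.MP_c6d112_nt.SievedModels Pool.Agent.R528.RM Pool.Agent.N9.AD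

/-- Hawkins' sieve is a sieved model with `Q = ∅`. In every sieved model: (1) almost surely for every
`ε > 0` there is a `K` such that for all large `N` and all `2 ≤ x`, `2 x + 3 ≤ N`, the number of the
`s ≤ x` with `s`, `s + 2`, `N - s`, `N - s + 2` chosen differs from `𝔖(N) x / (log² x log² N)` by at
most `ε x / (log² x log² N) + K log N`; (2) almost surely, for some `K` every large `N`, if `2 ∈ Q`
every large even `N`, is a sum of two twins `p`, `q`, with `p ≤ K (log N)³ (log log N)²`. -/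
theorem Pool.Agent.Results.MP_c6d112_nt.SievedModels.result
    {Ω : Type} [m : MeasurableSpace Ω] (μ : Measure Ω) [IsProbabilityMeasure μ]
    (ℱ : Filtration ℕ m) (A : ℕ → Set Ω) :
    (HawkinsSieve μ ℱ A → SievedModel μ ℱ A ∅) ∧
    (∀ Q : Finset ℕ, (∀ p ∈ Q, p.Prime) → SievedModel μ ℱ A Q →
      (∀ᵐ ω ∂μ, ∀ ε : ℝ, 0 < ε → ∃ K : ℝ, ∀ᶠ N : ℕ in atTop, ∀ x : ℕ, 2 ≤ x → 2 * x + 3 ≤ N →
        |(reps A ω N x : ℝ) - sing Q N * (x / (Real.log x ^ 2 * Real.log N ^ 2))| ≤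
          ε * (x / (Real.log x ^ 2 * Real.log N ^ 2)) + K * Real.log N) ∧
      (∀ᵐ ω ∂μ, ∃ K : ℝ, ∀ᶠ N : ℕ in atTop, (2 ∈ Q → Even N) → ∃ p q : ℕ, N = p + q ∧
        (p : ℝ) ≤ K * Real.log N ^ 3 * Real.log (Real.log N) ^ 2 ∧ Twin A ω p ∧ Twin A ω q)) := by
  classical
  refine ⟨hawkins μ ℱ A, ?_⟩
  rintro Q hQ ⟨hA, hcop, hd⟩
  have hlaw := dub_law (μ := μ) hA Q hQ hcop hd
  constructor
  · filter_upwards [hlaw] with ω hω ε hε
    obtain ⟨K, _, hK⟩ := hω ε hε
    refine ⟨K, ?_⟩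
    filter_upwards [hK] with N hN x hx2 hx
    have h1 := hN x hx2 (by omega)
    rw [sing_eq Q hQ N] at h1
    rw [reps_eq]
    exact h1
  · filter_upwards [hlaw] with ω hω
    set W := ∏ p ∈ Q, p with hWdef
    have hW : 0 < W := Finset.prod_pos fun q hq => (hQ q hq).pos
    have hWR : (0 : ℝ) < W := by exact_mod_cast hW
    have hφR : (0 : ℝ) < Nat.totient W := by exact_mod_cast Nat.totient_pos.2 hW
    have h2W : 2 ∣ W → 2 ∈ Q := by
      intro h
      rw [hWdef, Prime.dvd_finsetProd_iff Nat.prime_two.prime] at h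
      obtain ⟨p, hp, hp2⟩ := h
      have := (Nat.prime_dvd_prime_iff_eq Nat.prime_two (hQ p hp)).1 hp2
      rwa [this]
    set c : ℝ := (W : ℝ) / Nat.totient W with hc
    have hc0 : 0 < c := by positivity
    obtain ⟨K, hK0, hK⟩ := fin_least
      (fun N x => ∑ s ∈ Finset.Icc 1 x, In A s ω * In A (s + 2) ω * In A (N - s) ω * In A (N - s + 2) ω)
      (fun N => c ^ 2 * (((GD W N).card : ℝ) * (c * (1 / Nat.totient W)))) (fun N => (N - 3) / 2) 2 2
      (c ^ 2 * (c * (1 / Nat.totient W))) (by positivity) (fun N => (2 ∈ Q → Even N) ∧ N % 3 = 1)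
      (by
        filter_upwards [eventually_ge_atTop 0] with N _ hN
        have h1 : (1 : ℝ) ≤ (GD W N).card := by
          exact_mod_cast GD_pos W hW N (fun h => hN.1 (h2W h)) (fun _ => hN.2)
        have h2 : 0 < c * (1 / (Nat.totient W : ℝ)) := by positivity
        apply mul_le_mul_of_nonneg_left _ (by positivity)
        exact le_mul_of_one_le_left h2.le h1)
      (by
        have h2 := (isLittleO_log_rpow_rpow_atTop ((4 : ℕ) : ℝ) (zero_lt_one)).bound
          (show (0 : ℝ) < 1 / 4 by norm_num)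
        filter_upwards [tendsto_natCast_atTop_atTop.eventually h2, eventually_ge_atTop 10] with N g1 g2
        have hN : (10 : ℝ) ≤ N := by exact_mod_cast g2
        have g3 : 0 ≤ Real.log (N : ℝ) := Real.log_natCast_nonneg N
        rw [Real.norm_eq_abs, Real.norm_eq_abs, abs_of_nonneg (Real.rpow_nonneg g3 _),
          abs_of_nonneg (Real.rpow_nonneg (by linarith) _), Real.rpow_natCast, Real.rpow_one] at g1
        have g4 : (N : ℝ) ≤ 4 * ((N - 3) / 2 : ℕ) := by
          have : N ≤ 4 * ((N - 3) / 2) := by omega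
          exact_mod_cast this
        calc Real.log (N : ℝ) ^ (2 + 2) ≤ 1 / 4 * N := g1
          _ ≤ ((N - 3) / 2 : ℕ) := by linarith)
      hω
    refine ⟨K + 2, ?_⟩
    have hlog : Tendsto (fun N : ℕ => Real.log (N : ℝ)) atTop atTop :=
      Real.tendsto_log_atTop.comp tendsto_natCast_atTop_atTop
    have hll : Tendsto (fun N : ℕ => Real.log (Real.log (N : ℝ))) atTop atTop :=
      Real.tendsto_log_atTop.comp hlog
    obtain ⟨N₀, hN₀⟩ := eventually_atTop.1 ((hK.and (hlog.eventually_ge_atTop 1)).and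
      (hll.eventually_ge_atTop 1))
    filter_upwards [eventually_ge_atTop (N₀ + 10)] with N hN hpar
    -- the auxiliary number `m`
    obtain ⟨r, hr, hr3⟩ := ar2 N (ar4 N 0 N₀ (by norm_num) hN).2.2.1
    obtain ⟨n1, n2, n3, n4⟩ := ar4 N r N₀ hr hN
    have hmev : 2 ∈ Q → Even (N - 2 * r) := by
      intro h
      obtain ⟨k, hk⟩ := hpar h
      exact ⟨k - r, ar1 N r k hr n3 hk⟩
    obtain ⟨⟨hm, hl3⟩, hl4⟩ := hN₀ (N - 2 * r) n1
    obtain ⟨⟨_, hl1⟩, hl2⟩ := hN₀ N n2
    obtain ⟨x, hx2, hxX, hxK, hpos⟩ := hm ⟨hmev, hr3⟩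
    obtain ⟨s, hs1, hs2⟩ := Finset.exists_ne_zero_of_sum_ne_zero hpos.ne'
    have hs' := Finset.mem_Icc.1 hs1
    have har := ar3 N r x s hr n3 hxX hs'.2
    set m' := N - 2 * r with hm'
    have hmem : ∀ v, In A v ω ≠ 0 → ω ∈ A v := by
      intro v hv
      by_contra hcon
      exact hv (indicator_of_notMem hcon _)
    have q4 : ω ∈ A (m' - s + 2) := hmem _ (right_ne_zero_of_mul hs2)
    have q3 : ω ∈ A (m' - s) := hmem _ (right_ne_zero_of_mul (left_ne_zero_of_mul hs2))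
    have q2 : ω ∈ A (s + 2) :=
      hmem _ (right_ne_zero_of_mul (left_ne_zero_of_mul (left_ne_zero_of_mul hs2)))
    have q1 : ω ∈ A s :=
      hmem _ (left_ne_zero_of_mul (left_ne_zero_of_mul (left_ne_zero_of_mul hs2)))
    -- the bound
    have hbound : (s : ℝ) + 2 ≤ (K + 2) * Real.log N ^ 3 * Real.log (Real.log N) ^ 2 := by
      have e1 : (s : ℝ) ≤ x := by exact_mod_cast hs'.2
      have e2 : Real.log (m' : ℝ) ≤ Real.log N := by
        apply Real.log_le_log
        · exact_mod_cast n4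
        · have : m' ≤ N := Nat.sub_le _ _
          exact_mod_cast this
      have e3 : Real.log (Real.log (m' : ℝ)) ≤ Real.log (Real.log N) :=
        Real.log_le_log (by linarith) e2
      have e4 : K * Real.log (m' : ℝ) ^ 3 * Real.log (Real.log (m' : ℝ)) ^ 2 ≤
          K * Real.log N ^ 3 * Real.log (Real.log N) ^ 2 := by
        gcongr
      have e5 : 1 ≤ Real.log (N : ℝ) ^ 3 := one_le_pow₀ hl1
      have e6 : 1 ≤ Real.log (Real.log (N : ℝ)) ^ 2 := one_le_pow₀ hl2
      have e7 : 1 ≤ Real.log (N : ℝ) ^ 3 * Real.log (Real.log (N : ℝ)) ^ 2 := by nlinarith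
      have e8 : (x : ℝ) ≤ K * Real.log (m' : ℝ) ^ 3 * Real.log (Real.log (m' : ℝ)) ^ 2 := hxK
      nlinarith
    have hr' : r = 0 ∨ r = 1 ∨ r = 2 := by
      clear har hmev hm hpar h2W hs2 hpos
      omega
    rcases hr' with h | h | h
    · refine ⟨s, m' - s, har.1 h, by linarith, ⟨q1, s + 2, Or.inl rfl, q2⟩,
        ⟨q3, m' - s + 2, Or.inl rfl, q4⟩⟩
    · refine ⟨s, m' - s + 2, har.2.1 h, by linarith, ⟨q1, s + 2, Or.inl rfl, q2⟩,
        ⟨q4, m' - s, Or.inr rfl, q3⟩⟩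
    · refine ⟨s + 2, m' - s + 2, har.2.2 h, by push_cast; linarith, ⟨q2, s, Or.inr rfl, q1⟩,
        ⟨q4, m' - s, Or.inr rfl, q3⟩⟩
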