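import Pool.Agent.N39.RW.UniD

set_option autoImplicit false

/-!
# Every even number as a sum of two almost twin primes, with a summand in short windows

For every even `N`, the four numbers `p`, `p + s₁`, `q = N - p`, `q + s₂` with suitable signs `s₁, s₂ = ± 2`: any one of
them prime, any other one a product of at most two primes, the other two almost primes, where `p` runs over ALL short
windows around a positive proportion of the integers, uniformly in `N`.
-/

namespace Pool.Agent.Results.MP_c6d112_nt.TwinSumsInShortWindows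

open Filter

/-- the four numbers `p`, `p + s₁`, `N - p`, `N - p + s₂` -/
def member (N s₁ s₂ : ℤ) (l : Fin 4) (p : ℕ) : ℤ := ![(p : ℤ), p + s₁, N - p, N - p + s₂] l

open Classical in
/-- the number of the residue classes of `p` modulo `q` for which `q` divides one of the four numbers -/
noncomputable def nu (N s₁ s₂ : ℤ) (q : ℕ) : ℕ :=
  ((Finset.range q).filter (fun p => ∃ l, (q : ℤ) ∣ member N s₁ s₂ l p)).card

/-- the signs fit to `N`: both are `2` or `-2`, and no prime divides the product of the four numbers for all `p` -/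
def Fit (N s₁ s₂ : ℤ) : Prop := (s₁ = 2 ∨ s₁ = -2) ∧ (s₂ = 2 ∨ s₂ = -2) ∧ ∀ q : ℕ, q.Prime → nu N s₁ s₂ q < q

/-- the sieve product -/
noncomputable def V (N s₁ s₂ : ℤ) (X : ℕ) : ℝ :=
  ∏ q ∈ (Finset.Icc 1 X).filter Nat.Prime, (1 - (nu N s₁ s₂ q : ℝ) / q)

/-- number `i` is prime, number `j` is a product of at most two primes, all four numbers are positive and products of
at most `r` primes, all larger than `z`; and `2 p < N` -/
def Good (N s₁ s₂ : ℤ) (i j : Fin 4) (r : ℕ) (z : ℝ) (p : ℕ) : Prop :=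
  (member N s₁ s₂ i p).natAbs.Prime ∧ (member N s₁ s₂ j p).natAbs.primeFactorsList.length ≤ 2 ∧
    (∀ l, 0 < member N s₁ s₂ l p ∧ (member N s₁ s₂ l p).natAbs.primeFactorsList.length ≤ r ∧
      ∀ q : ℕ, q.Prime → (q : ℤ) ∣ member N s₁ s₂ l p → z < (q : ℝ)) ∧ 2 * (p : ℤ) < N

/-- all prime factors of all four numbers are larger than `z` -/
def Sieved (N s₁ s₂ : ℤ) (z : ℝ) (p : ℕ) : Prop :=
  ∀ l, ∀ q : ℕ, q.Prime → (q : ℤ) ∣ member N s₁ s₂ l p → z < (q : ℝ)

/-- `n` is regular: in ALL windows `(u, v]` with `u ≤ n ≤ v` and `K / V ≤ v - u ≤ n / 2` there are at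
least `c₁ V (v - u)` good `p`, and at most `c₂ V (v - u)` sieved `p`, at the level `X ^ (1 / r)`. -/
def Regular (N s₁ s₂ : ℤ) (i j : Fin 4) (r : ℕ) (c₁ c₂ K : ℝ) (X n : ℕ) : Prop :=
  ∀ u v : ℕ, u ≤ n → n ≤ v → K / V N s₁ s₂ X ≤ (v : ℝ) - u → (v : ℝ) - u ≤ (n : ℝ) / 2 →
    c₁ * ((v : ℝ) - u) * V N s₁ s₂ X ≤
      ({p : ℕ | u < p ∧ p ≤ v ∧ Good N s₁ s₂ i j r ((X : ℝ) ^ (1 / (r : ℝ))) p}.ncard : ℝ) ∧
    ({p : ℕ | u < p ∧ p ≤ v ∧ Sieved N s₁ s₂ ((X : ℝ) ^ (1 / (r : ℝ))) p}.ncard : ℝ) ≤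
      c₂ * ((v : ℝ) - u) * V N s₁ s₂ X

/-- the coefficients -/
def ca : Fin 4 → ℤ := ![1, 1, -1, -1]
def cb (N s₁ s₂ : ℤ) : Fin 4 → ℤ := ![0, s₁, N, N + s₂]

theorem mem_form (N s₁ s₂ : ℤ) (l : Fin 4) (p : ℕ) : ca l * p + cb N s₁ s₂ l = member N s₁ s₂ l p := by
  unfold member ca cb
  fin_cases l <;> simp <;> ring

theorem nu_eq (N s₁ s₂ : ℤ) (q : ℕ) :
    Pool.Agent.H373R2.T7.nuB (Pool.Agent.N39.RW.QL ca (cb N s₁ s₂)) q = nu N s₁ s₂ q := by
  unfold Pool.Agent.H373R2.T7.nuB nu Pool.Agent.N39.RW.QL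
  simp only [mem_form]

theorem V_eq (N s₁ s₂ : ℤ) (X : ℕ) :
    Pool.Agent.W123.RP.Vq (Pool.Agent.N39.RW.QL ca (cb N s₁ s₂)) X = V N s₁ s₂ X := by
  unfold Pool.Agent.W123.RP.Vq V Pool.Agent.H373R2.T7.pz
  apply Finset.prod_congr rfl
  intro p _
  rw [nu_eq]

theorem nu_lt (N s₁ s₂ : ℤ) (q : ℕ) (h : ∃ p : ℕ, ∀ l, ¬ (q : ℤ) ∣ member N s₁ s₂ l p) (hq : 0 < q) :
    nu N s₁ s₂ q < q := by
  classical
  obtain ⟨p, hp⟩ := h
  unfold nu
  have h1 : ((Finset.range q).filter (fun p => ∃ l, (q : ℤ) ∣ member N s₁ s₂ l p)) ⊂ Finset.range q := by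
    rw [Finset.ssubset_iff_of_subset (Finset.filter_subset _ _)]
    refine ⟨p % q, Finset.mem_range.2 (Nat.mod_lt _ hq), fun h => ?_⟩
    rw [Finset.mem_filter] at h
    obtain ⟨l, hl⟩ := h.2
    apply hp l
    rw [← mem_form] at hl ⊢
    have e : ca l * (p : ℤ) + cb N s₁ s₂ l = (ca l * ((p % q : ℕ) : ℤ) + cb N s₁ s₂ l) + q * (ca l * ((p / q : ℕ) : ℤ)) := by
      have e' : (p : ℤ) = q * ((p / q : ℕ) : ℤ) + ((p % q : ℕ) : ℤ) := by
        exact_mod_cast (Nat.div_add_mod p q).symm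
      linear_combination ca l * e'
    rw [e]
    exact dvd_add hl (Dvd.intro _ rfl)
  have h2 := Finset.card_lt_card h1
  rw [Finset.card_range] at h2
  convert h2 using 2

theorem fit_exists (N : ℤ) (hN : Even N) : ∃ s₁ s₂ : ℤ, Fit N s₁ s₂ := by
  have hN2 : N % 2 = 0 := Int.even_iff.1 hN
  have key : ∀ s₁ s₂ : ℤ, (s₁ = 2 ∨ s₁ = -2) → (s₂ = 2 ∨ s₂ = -2) →
      (∃ p : ℕ, ∀ l, ¬ ((3 : ℕ) : ℤ) ∣ member N s₁ s₂ l p) → Fit N s₁ s₂ := by
    intro s₁ s₂ h1 h2 h3
    refine ⟨h1, h2, fun q hq => nu_lt N s₁ s₂ q ?_ hq.pos⟩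
    rcases Nat.lt_or_ge q 5 with h5 | h5
    · have h6 : q = 2 ∨ q = 3 := by
        have := hq.two_le
        have h4 : q ≠ 4 := by
          rintro rfl
          revert hq
          decide
        omega
      rcases h6 with rfl | rfl
      · refine ⟨1, fun l => ?_⟩
        unfold member
        fin_cases l
        · simp
        · rcases h1 with rfl | rfl <;> simp <;> omega
        · simp
          omega
        · rcases h2 with rfl | rfl <;> simp <;> omega
      · exact h3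
    · by_contra hcon
      push Not at hcon
      choose f hf using hcon
      have h7 : Set.InjOn f (Finset.range q : Set ℕ) := by
        intro n hn n' hn' hee
        rw [Finset.mem_coe, Finset.mem_range] at hn hn'
        have h8 := hf n
        have h9 := hf n'
        rw [← hee, ← mem_form] at h9
        rw [← mem_form] at h8
        have h10 : (q : ℤ) ∣ ca (f n) * ((n : ℤ) - n') := by
          have h11 := dvd_sub h8 h9
          have e1 : ca (f n) * (n : ℤ) + cb N s₁ s₂ (f n) - (ca (f n) * (n' : ℤ) + cb N s₁ s₂ (f n)) =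
              ca (f n) * ((n : ℤ) - n') := by ring
          rwa [e1] at h11
        have h12 : (q : ℤ) ∣ (n : ℤ) - n' := by
          have hca : ca (f n) = 1 ∨ ca (f n) = -1 := by
            generalize f n = l
            fin_cases l <;> simp [ca]
          rcases hca with h | h
          · rw [h, one_mul] at h10
            exact h10
          · rw [h, neg_one_mul, Int.dvd_neg] at h10
            exact h10
        have h11 : |(n : ℤ) - n'| < q := by
          rw [abs_lt]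
          constructor <;> omega
        have := Int.eq_zero_of_abs_lt_dvd h12 h11
        omega
      have h8 := Finset.card_le_card_of_injOn (s := Finset.range q) (t := (Finset.univ : Finset (Fin 4))) f
        (fun n _ => Finset.mem_univ _) h7
      rw [Finset.card_range, Finset.card_univ, Fintype.card_fin] at h8
      omega
  have h3 : N % 3 = 0 ∨ N % 3 = 1 ∨ N % 3 = 2 := by omega
  rcases h3 with h | h | h
  · refine ⟨2, -2, key 2 (-2) (Or.inl rfl) (Or.inr rfl) ⟨2, fun l => ?_⟩⟩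
    unfold member
    fin_cases l <;> simp <;> omega
  · refine ⟨2, 2, key 2 2 (Or.inl rfl) (Or.inl rfl) ⟨2, fun l => ?_⟩⟩
    unfold member
    fin_cases l <;> simp <;> omega
  · refine ⟨-2, -2, key (-2) (-2) (Or.inr rfl) (Or.inr rfl) ⟨1, fun l => ?_⟩⟩
    unfold member
    fin_cases l <;> simp <;> omega

theorem result : (∀ N : ℤ, Even N → ∃ s₁ s₂ : ℤ, Fit N s₁ s₂) ∧
    ∃ (r : ℕ) (c₁ c₂ K μ : ℝ), 1 ≤ r ∧ 0 < c₁ ∧ 0 < c₂ ∧ 0 < K ∧ 0 < μ ∧
    ∀ K₀ : ℕ, ∀ᶠ X : ℕ in atTop, ∀ (N s₁ s₂ : ℤ) (i j : Fin 4), i ≠ j → 8 * (X : ℤ) < N → N ≤ K₀ * X →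
      Fit N s₁ s₂ →
      μ * X ≤ ({n : ℕ | X < n ∧ n ≤ 2 * X ∧ Regular N s₁ s₂ i j r c₁ c₂ K X n}.ncard : ℝ) := by
  classical
  refine ⟨fit_exists, ?_⟩
  obtain ⟨r, hr, c₁, c₂, K, μ, hc₁, hc₂, hK, hμ, H⟩ := Pool.Agent.N39.RW.uniG 4 1 (by omega)
  refine ⟨r, c₁, c₂, K, μ, hr, hc₁, hc₂, by linarith, hμ, fun K₀ => ?_⟩
  filter_upwards [H (K₀ + 2), eventually_ge_atTop 16] with X hX hX16
  intro N s₁ s₂ i j hij hN8 hNK hfit
  obtain ⟨hs1, hs2, hadm⟩ := hfit
  have hadm' : Pool.Agent.X32.Uni.AdmL ca (cb N s₁ s₂) := by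
    intro p hp
    by_contra hcon
    push Not at hcon
    have h1 : (Finset.range p).filter (fun r => Pool.Agent.N39.RW.QL ca (cb N s₁ s₂) p r) = Finset.range p :=
      Finset.filter_true_of_mem (fun n _ => hcon n)
    have h2 : Pool.Agent.H373R2.T7.nuB (Pool.Agent.N39.RW.QL ca (cb N s₁ s₂)) p = p := by
      have h5 := congrArg Finset.card h1
      rw [Finset.card_range] at h5
      unfold Pool.Agent.H373R2.T7.nuB
      refine Eq.trans ?_ h5
      congr
    rw [nu_eq] at h2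
    have := hadm p hp
    omega
  have hNX : N.natAbs ≤ K₀ * X := by
    have h1 : ((N.natAbs : ℕ) : ℤ) ≤ ((K₀ * X : ℕ) : ℤ) := by
      push_cast
      rw [abs_of_nonneg (by omega)]
      exact hNK
    exact_mod_cast h1
  have hX' := hX ca (cb N s₁ s₂) i j (by
      intro l
      fin_cases l <;> simp [ca]) (by
      intro l
      fin_cases l <;> simp [ca]) (by
      intro l
      have e : (K₀ + 2) * X = K₀ * X + 2 * X := by ring
      rw [e]
      have hN0 : 0 < N := by omega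
      unfold cb
      fin_cases l
      · simp
      · rcases hs1 with rfl | rfl <;> simp <;> omega
      · show N.natAbs ≤ _
        omega
      · show (N + s₂).natAbs ≤ _
        rcases hs2 with rfl | rfl <;> omega) hadm' (by
      revert hij
      have hs10 : s₁ ≠ 0 := by rcases hs1 with rfl | rfl <;> decide
      have hs20 : s₂ ≠ 0 := by rcases hs2 with rfl | rfl <;> decide
      fin_cases i <;> fin_cases j <;> simp [ca, cb, hs10, hs20, Ne.symm hs10]) (by
      revert hij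
      have hs10 : s₁ ≠ 0 := by rcases hs1 with rfl | rfl <;> decide
      have hs20 : s₂ ≠ 0 := by rcases hs2 with rfl | rfl <;> decide
      have hb1 : N ≠ 0 := by omega
      have hb2 : N ≠ -s₁ := by rcases hs1 with rfl | rfl <;> omega
      have hb3 : N + s₂ ≠ 0 := by rcases hs2 with rfl | rfl <;> omega
      have hb4 : N + s₂ ≠ -s₁ := by rcases hs1 with rfl | rfl <;> rcases hs2 with rfl | rfl <;> omega
      have hb5 : s₁ ≠ -N := by omega
      have hb6 : s₁ ≠ -(N + s₂) := by omega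
      have hb7 : (0 : ℤ) ≠ -(N + s₂) := by omega
      intro hij h
      fin_cases i <;> fin_cases j <;> simp [ca, cb] at h hij <;> omega)
  rw [V_eq] at hX'
  refine hX'.trans ?_
  rw [← Set.ncard_coe_finset]
  refine Nat.cast_le.2 (Set.ncard_le_ncard ?_ ((Set.finite_Iic (2 * X)).subset fun n hn => hn.2.1))
  intro n hn
  rw [Finset.mem_coe, Finset.mem_filter, Finset.mem_Ioc] at hn
  obtain ⟨⟨hn1, hn2⟩, hn3⟩ := hn
  refine ⟨hn1, hn2, fun u v hu hv h1 h2 => ?_⟩
  have hnr : (0 : ℝ) ≤ n := Nat.cast_nonneg n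
  obtain ⟨h3, h4⟩ := hn3 u v hu hv h1 (by linarith)
  have hvn : 2 * v ≤ 2 * u + n := by
    have : 2 * (v : ℝ) ≤ 2 * u + n := by linarith
    exact_mod_cast this
  have hcv : ∀ (P : ℕ → Prop), (((Finset.Ioc u v).filter (fun m => P m)).card) =
      Set.ncard {n : ℕ | u < n ∧ n ≤ v ∧ P n} := by
    intro P
    rw [← Set.ncard_coe_finset]
    congr 1
    ext m
    rw [Finset.mem_coe, Finset.mem_filter, Finset.mem_Ioc, and_assoc]
    rfl
  constructor
  · rw [hcv] at h3
    refine h3.trans (Nat.cast_le.2 (Set.ncard_le_ncard ?_ ((Set.finite_Iic v).subset fun n hn => hn.2.1)))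
    rintro m ⟨h5, h6, h7⟩
    refine ⟨h5, h6, ?_⟩
    obtain ⟨h8, h9, h10⟩ := h7
    simp only [mem_form] at h8 h9 h10
    refine ⟨h8, h9, fun l => ⟨?_, h10 l⟩, by omega⟩
    unfold member
    fin_cases l
    · show (0 : ℤ) < m
      omega
    · show (0 : ℤ) < m + s₁
      rcases hs1 with rfl | rfl <;> omega
    · show (0 : ℤ) < N - m
      omega
    · show (0 : ℤ) < N - m + s₂
      rcases hs2 with rfl | rfl <;> omega
  · rw [hcv] at h4
    unfold Pool.Agent.N39.RW.GR at h4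
    simp only [mem_form] at h4
    exact h4

end Pool.Agent.Results.MP_c6d112_nt.TwinSumsInShortWindows
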